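import Pool.Agent.NH85.MQ.CunA
import Pool.Agent.X69.Ric.PatC
import Pool.Agent.X69.Ric.SysA

/-!
# Common patterns in the starting points of chains `2 ^ j n + 1`, `j < k`, of primes or almost primes

A theorem of Szemeredi type, with the number of patterns of the right order of magnitude, for the sets of
integers `n` such that `n + 1, 2 n + 1, ..., 2 ^ (k - 1) n + 1` have no small prime factors (for `n = p - 1` these are
the members of the chain of the second kind starting at `p`); several such sets, in different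
intervals, have common difference vectors. The set of the `n` such that these `k` numbers have at most
`R` prime factors, all of them larger than `n ^ (1 / R)`, is such a set in every interval
`(X, X + Y]`, `X ^ θ ≤ Y ≤ X`.

The proof applies the theorems of `Pool.Agent.X69.Ric` (in the starting files) on systems of polynomials to
the system `2 ^ j X + 1`, `j < k`.
-/

set_option autoImplicit false

namespace Pool.Agent.Results.MP_9f2731_nt.CommonPatternsOfStarts

open Filter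

/-- All prime factors of the members `2 ^ j n + 1`, `j < k`, of the chain are larger than `y`. -/
def Rough (k : ℕ) (y : ℝ) (n : ℕ) : Prop := ∀ j < k, ∀ q : ℕ, q.Prime → q ∣ 2 ^ j * n + 1 → y < q

/-- The integer `f · h = f 0 * h 0 + f 1 * h 1 + ...`. -/
def dot {m : ℕ} (f h : Fin m → ℕ) : ℕ := ∑ i, f i * h i

/-- The number of the residues `u` modulo `q` such that `q` divides a member of the chain
`2 ^ j (u + f · h) + 1`, `j < k`, for some `f ∈ P`. -/
noncomputable def omega (k : ℕ) {m : ℕ} (h : Fin m → ℕ) (P : Finset (Fin m → ℕ)) (q : ℕ) : ℕ :=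
  {u : ℕ | 1 ≤ u ∧ u ≤ q ∧ ∃ f ∈ P, ∃ j < k, q ∣ 2 ^ j * (u + dot f h) + 1}.ncard

/-- The product of the `1 - w q / q` over the primes `q ≤ X`. -/
noncomputable def product (w : ℕ → ℕ) (X : ℕ) : ℝ :=
  ∏ q ∈ (Finset.Icc 1 X).filter Nat.Prime, (1 - (w q : ℝ) / q)

/-- The number of the `n ∈ S` such that all the `n + f · h`, `f ∈ P`, are in `S`. -/
noncomputable def count (S : Set ℕ) {m : ℕ} (h : Fin m → ℕ) (P : Finset (Fin m → ℕ)) : ℕ :=
  {n : ℕ | n ∈ S ∧ ∀ f ∈ P, n + dot f h ∈ S}.ncard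

/-- For all `P ⊆ {0, ..., K - 1} ^ m` with `0 ∈ P`: the integers `f · h`, `f ∈ P`, are different, the
conditions modulo the primes are solvable, and each of the sets `S j` contains at least
`c X ∏ (1 - omega k h P q / q)` of the patterns `n + f · h`, `f ∈ P`. -/
def Common {M m : ℕ} (k : ℕ) (c : ℝ) (K X : ℕ) (S : Fin M → Set ℕ) (h : Fin m → ℕ) : Prop :=
  ∀ P : Finset (Fin m → ℕ), (∀ f ∈ P, ∀ i, f i < K) → (fun _ => 0) ∈ P →
    Set.InjOn (fun f => dot f h) (P : Set (Fin m → ℕ)) ∧ (∀ q : ℕ, q.Prime → omega k h P q < q) ∧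
      ∀ j, c * (X * product (omega k h P) X) ≤ (count (S j) h P : ℝ)

/-- The `n` for which all the `2 ^ j n + 1`, `j < k`, have at most `R` prime factors, counted with
multiplicity, all of them larger than `n ^ (1 / R)`. -/
def Almost (k R : ℕ) : Set ℕ :=
  {n | (∀ j < k, (2 ^ j * n + 1).primeFactorsList.length ≤ R) ∧ Rough k ((n : ℝ) ^ (1 / (R : ℝ))) n}

/-- **Common patterns** in the starting points of chains of rough numbers or almost primes. -/
theorem result (k : ℕ) (hk : 1 ≤ k) :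
    (∀ (M m K : ℕ), 1 ≤ M → ∀ κ δ : ℝ, 0 < κ → κ ≤ 1 → 0 < δ →
      ∃ c : ℝ, 0 < c ∧ ∃ B : ℕ, ∀ᶠ X : ℕ in atTop,
      ∀ D : ℕ, Real.log X ^ B ≤ D → D ≤ X → ∀ (A : Fin M → ℕ) (S : Fin M → Set ℕ),
        (∀ j, S j ⊆ Set.Ioc (A j) (A j + X)) → (∀ j, ∀ n ∈ S j, Rough k ((X : ℝ) ^ κ) n) →
        (∀ j, δ * X / Real.log X ^ k ≤ ((S j).ncard : ℝ)) →
        c * (D : ℝ) ^ m ≤ ({h : Fin m → ℕ | (∀ i, 1 ≤ h i ∧ h i ≤ D) ∧ Common k c K X S h}.ncard : ℝ)) ∧
    ∀ θ : ℝ, 0 < θ → θ ≤ 1 → ∃ r₀ : ℕ, 2 ≤ r₀ ∧ ∀ R : ℕ, r₀ ≤ R → ∃ δ : ℝ, 0 < δ ∧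
      ∀ᶠ X : ℕ in atTop, ∀ Y : ℕ, (X : ℝ) ^ θ ≤ Y → Y ≤ X →
        δ * Y / Real.log Y ^ k ≤ ((Almost k R ∩ Set.Ioc X (X + Y)).ncard : ℝ) ∧
        ∀ n ∈ Almost k R ∩ Set.Ioc X (X + Y), Rough k ((Y : ℝ) ^ (1 / (R : ℝ))) n := by
  have hk0 : NeZero k := ⟨by omega⟩
  refine ⟨fun M m K hM κ δ hκ hκ1 hδ => ?_, fun θ hθ hθ1 => ?_⟩
  · obtain ⟨c, hc, B, h⟩ := Pool.Agent.X69.Ric.sys_common (M := M) (fun _ => Pool.Agent.NH85.MQ.CF k)
      (fun _ => Pool.Agent.NH85.MQ.CF_sys k) (fun _ q n => ∃ j < k, q ∣ 2 ^ j * n + 1)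
      (fun _ q n _ => (Pool.Agent.NH85.MQ.CF_dvd q n).symm) m K κ δ hκ hκ1 hδ
    refine ⟨c, hc, B, ?_⟩
    filter_upwards [h] with X hX D hBD hDX A S hS hSR hSc
    refine (hX D hBD hDX A S hS (fun j n hn q hq hd => ?_) hSc).trans ?_
    · obtain ⟨i, hi, hd⟩ := hd
      exact hSR j n hn i hi q hq hd
    apply Nat.cast_le.2
    apply Set.ncard_le_ncard
    · rintro h ⟨h1, h2⟩
      refine ⟨h1, fun P hP h0 => ?_⟩
      obtain ⟨h3, h4⟩ := h2 P hP h0
      exact ⟨h3, (h4 ⟨0, hM⟩).1, fun j => (h4 j).2⟩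
    · refine (Set.Finite.subset (Finset.finite_toSet
        (Fintype.piFinset (fun _ : Fin m => Finset.Icc 1 D))) ?_)
      rintro h ⟨h1, -⟩
      exact Finset.mem_coe.2 (Pool.Agent.X69.Ric.mem_box.2 h1)
  · obtain ⟨r₀, hr₀, h⟩ := Pool.Agent.X69.Ric.sys_almost_short (Pool.Agent.NH85.MQ.CF k)
      (Pool.Agent.NH85.MQ.CF_sys k) θ hθ hθ1
    refine ⟨r₀, hr₀, fun R hRr => ?_⟩
    obtain ⟨c, hc, h1⟩ := h R hRr
    have hR0 : (0 : ℝ) < 1 / R := by
      have : (0 : ℝ) < R := by exact_mod_cast (by omega : 0 < R)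
      positivity
    refine ⟨c * θ ^ k, by positivity, ?_⟩
    filter_upwards [h1, eventually_ge_atTop 3] with X hX1 hX3 Y hXY hYX
    have hX0 : (0 : ℝ) < X := by exact_mod_cast (by omega : 0 < X)
    have hX1' : (1 : ℝ) < X := by exact_mod_cast (by omega : 1 < X)
    have hlX : 0 < Real.log X := Real.log_pos hX1'
    have hlY : θ * Real.log X ≤ Real.log Y := by
      rw [← Real.log_rpow hX0]
      exact Real.log_le_log (Real.rpow_pos_of_pos hX0 _) hXY
    refine ⟨?_, fun n hn j hj q hq hd => ?_⟩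
    · have h2 := hX1 Y hXY hYX
      calc c * θ ^ k * Y / Real.log Y ^ k ≤ c * θ ^ k * Y / (θ * Real.log X) ^ k := by
            apply div_le_div_of_nonneg_left (by positivity) (by positivity)
            gcongr
        _ = c * Y / Real.log X ^ k := by
            rw [mul_pow]; field_simp
        _ ≤ _ := h2
        _ ≤ _ := by
            apply Nat.cast_le.2
            apply Set.ncard_le_ncard _ ((Set.finite_Ioc X (X + Y)).subset Set.inter_subset_right)
            rintro n ⟨h3, h4⟩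
            exact ⟨Pool.Agent.NH85.MQ.CF_almost h4, h3⟩
    · refine lt_of_le_of_lt ?_ (hn.1.2 j hj q hq hd)
      apply Real.rpow_le_rpow (Nat.cast_nonneg _) _ hR0.le
      have := hn.2.1
      exact_mod_cast (by omega : Y ≤ n)

end Pool.Agent.Results.MP_9f2731_nt.CommonPatternsOfStarts
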