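import Pool.Agent.NH85.MQ.CunA
import Pool.Agent.X69.Ric.Sys

/-!
# Gaps between consecutive starting points of chains `2 ^ j n + 1`, `j < k`, of primes or almost primes

Every dense set `A` of integers `n` in a short interval, for which `n + 1, 2 n + 1, ..., 2 ^ (k - 1) n + 1` have
no small prime factors (for `n = p - 1` these are the members of the chain of the second kind starting
at `p`), has a positive proportion of all vectors of `m` consecutive gaps of the average size `(log X) ^ k`,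
each of them with the right frequency. The set of the `n` for which these `k` numbers have at most `R`
prime factors is such a set in every interval `(X, X + Y]`, `X ^ θ ≤ Y ≤ X`.

The proof applies the theorems of `Pool.Agent.X69.Ric` (in the starting files) on systems of polynomials to
the system `2 ^ j X + 1`, `j < k`.
-/

set_option autoImplicit false

namespace Pool.Agent.Results.MP_9f2731_nt.GapVectorsOfStarts

open Filter

/-- All prime factors of the members `2 ^ j n + 1`, `j < k`, of the chain are at least `y`. -/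
def Rough (k : ℕ) (y : ℝ) (n : ℕ) : Prop := ∀ j < k, ∀ q : ℕ, q.Prime → q ∣ 2 ^ j * n + 1 → y ≤ q

/-- `n, n + h 0, n + h 0 + h 1, ...` are `m + 1` consecutive elements of `A`: the elements `x` of `A` with
`n ≤ x ≤ n + h 0 + ... + h (m - 1)` are exactly these `m + 1` integers. -/
def Gaps (A : Set ℕ) {m : ℕ} (h : Fin m → ℕ) (n : ℕ) : Prop :=
  (∀ i, 0 < h i) ∧ ∀ x, (x ∈ A ∧ n ≤ x ∧ x ≤ n + ∑ i, h i) ↔
    ∃ j : ℕ, j ≤ m ∧ x = n + ∑ i ∈ (Finset.univ : Finset (Fin m)).filter (fun i : Fin m => (i : ℕ) < j), h i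

/-- The `n` for which all the `2 ^ j n + 1`, `j < k`, have at most `R` prime factors, counted with
multiplicity, all of them at least `n ^ (1 / R)`. -/
def Almost (k R : ℕ) : Set ℕ :=
  {n | (∀ j < k, (2 ^ j * n + 1).primeFactorsList.length ≤ R) ∧ Rough k ((n : ℝ) ^ (1 / (R : ℝ))) n}

/-- **Gap vectors** of the starting points of chains of rough numbers or almost primes. -/
theorem result (k : ℕ) (hk : 1 ≤ k) :
    (∀ (δ θ c : ℝ) (m : ℕ), 0 < δ → 0 < θ → 0 < c → 1 ≤ m →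
      ∃ K : ℝ, 0 < K ∧ ∃ κ : ℝ, 0 < κ ∧ ∀ᶠ X : ℕ in atTop, ∀ Z Y : ℕ, (X : ℝ) ^ θ ≤ Y →
      ∀ A : Set ℕ, A ⊆ Set.Ioc Z (Z + Y) → (∀ n ∈ A, Rough k ((X : ℝ) ^ δ) n) →
      c * Y / Real.log X ^ k ≤ (A.ncard : ℝ) →
      κ * Real.log X ^ (k * m) ≤ (({h : Fin m → ℕ | (∀ i, 0 < h i ∧ (h i : ℝ) ≤ K * Real.log X ^ k) ∧
        κ * Y / Real.log X ^ (k * (m + 1)) ≤ (({n | n ∈ A ∧ Gaps A h n}.ncard : ℕ) : ℝ)}.ncard : ℕ) : ℝ)) ∧
    ∀ θ : ℝ, 0 < θ → θ ≤ 1 → ∃ r₀ : ℕ, 2 ≤ r₀ ∧ ∀ R : ℕ, r₀ ≤ R → ∃ c : ℝ, 0 < c ∧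
      ∀ᶠ X : ℕ in atTop, ∀ Y : ℕ, (X : ℝ) ^ θ ≤ Y → Y ≤ X →
        c * Y / Real.log X ^ k ≤ ((Almost k R ∩ Set.Ioc X (X + Y)).ncard : ℝ) ∧
        ∀ n ∈ Almost k R ∩ Set.Ioc X (X + Y), Rough k ((X : ℝ) ^ (1 / (R : ℝ))) n := by
  have hk0 : NeZero k := ⟨by omega⟩
  refine ⟨fun δ θ c m hδ hθ hc hm => ?_, fun θ hθ hθ1 => ?_⟩
  · obtain ⟨K, hK, κ, hκ, h⟩ := Pool.Agent.X69.Ric.sys_right (Pool.Agent.NH85.MQ.CF k) hk
      (Pool.Agent.NH85.MQ.CF_sys k) δ θ c hδ hθ hc m hm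
    refine ⟨K, hK, κ, hκ, ?_⟩
    filter_upwards [h] with X hX Z Y hXY A hA hAR hAc
    refine hX Z Y hXY A hA (fun n hn i p hp hd => ?_) hAc
    rw [Pool.Agent.NH85.MQ.CF_evalN] at hd
    exact hAR n hn i i.2 p hp (Int.natCast_dvd_natCast.1 hd)
  · obtain ⟨r₀, hr₀, h⟩ := Pool.Agent.X69.Ric.sys_almost_short (Pool.Agent.NH85.MQ.CF k)
      (Pool.Agent.NH85.MQ.CF_sys k) θ hθ hθ1
    refine ⟨r₀, hr₀, fun R hRr => ?_⟩
    obtain ⟨c, hc, h1⟩ := h R hRr
    have hR0 : (0 : ℝ) < 1 / R := by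
      have : (0 : ℝ) < R := by exact_mod_cast (by omega : 0 < R)
      positivity
    refine ⟨c, hc, ?_⟩
    filter_upwards [h1] with X hX1 Y hXY hYX
    refine ⟨?_, fun n hn j hj q hq hd => ?_⟩
    · refine (hX1 Y hXY hYX).trans ?_
      apply Nat.cast_le.2
      apply Set.ncard_le_ncard _ ((Set.finite_Ioc X (X + Y)).subset Set.inter_subset_right)
      rintro n ⟨h3, h4⟩
      obtain ⟨h5, h6⟩ := Pool.Agent.NH85.MQ.CF_almost h4
      exact ⟨⟨h5, fun j hj q hq hd => (h6 j hj q hq hd).le⟩, h3⟩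
    · refine le_trans ?_ (hn.1.2 j hj q hq hd)
      apply Real.rpow_le_rpow (Nat.cast_nonneg _) _ hR0.le
      have := hn.2.1
      exact_mod_cast (by omega : X ≤ n)

end Pool.Agent.Results.MP_9f2731_nt.GapVectorsOfStarts
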