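import Mathlib
import Pool.Agent.NH16.CC.Nar

set_option autoImplicit false

/-!
# Progressions of numbers with primes at large parts of almost all sets of positions in Cunningham chains

The numbers `2 ^ j n + 1`, `j = 0, 1, ...`, form a sequence in which every term is twice the preceding one minus
`1`: Cunningham chains of the second kind are runs of primes in such sequences, and the question is whether all
the positions `0, ..., k - 1` can be occupied by primes simultaneously.

Let `V` be a large finite set of positions.  Almost all `r`-element sets `F` of positions from `V` have the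
following property: every `T ⊆ F` contains a set `I` of at least `5 |T| / 18` positions which are occupied by
primes for all terms `n, n + d, ..., n + (l - 1) d` of many arithmetic progressions with a small difference `d`:
all the numbers `2 ^ j (n + i d) + 1`, `i < l`, `j ∈ I`, are prime.  Also for several scales `N_1, ..., N_R` and
several bases simultaneously, with `(5 / 18) ^ R` in place of `5 / 18`.

The theorem on classes of linear forms with the constant `18 / 5` along narrow progressions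
(`Pool.Agent.Y827.RO.narRD`) and its combination for several families (`Pool.Agent.R493.CP.nestG`) are from the
starting files.
-/

namespace Pool.Agent.Results.MP_9f2731_nt.ProgressionsAtPositions

open Finset

/-- the number of the `1 ≤ n ≤ N` such that all the numbers `b ^ j (n + i d) + 1`, `i < l`, `j ∈ I`, are prime -/
def count (b l d : ℕ) (I : Finset ℕ) (N : ℕ) : ℕ :=
  ((Icc 1 N).filter (fun n => ∀ i < l, ∀ j ∈ I, (b ^ j * (n + i * d) + 1).Prime)).card

/-- Every `T ⊆ F` contains a set `I` with `|I| ≥ (5 / 18) ^ R |T|` such that for every `ρ` there is a difference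
`1 ≤ d ≤ (log N_ρ) ^ C` for which at least `N_ρ / (log N_ρ) ^ C` of the `n ≤ N_ρ` are such that all the
`b_ρ ^ j (n + i d) + 1`, `i < l`, `j ∈ I`, are prime. -/
def Rich {R : ℕ} (b : Fin R → ℕ) (l C : ℕ) (N : Fin R → ℕ) (F : Finset ℕ) : Prop :=
  ∀ T ⊆ F, ∃ I ⊆ T, (5 / 18 : ℝ) ^ R * (T.card : ℝ) ≤ (I.card : ℝ) ∧
    ∀ ρ, ∃ d : ℕ, 1 ≤ d ∧ (d : ℝ) ≤ (Real.log (N ρ)) ^ C ∧
      (N ρ : ℝ) / (Real.log (N ρ)) ^ C ≤ (count (b ρ) l d I (N ρ) : ℝ)

open Classical in
theorem result (R r : ℕ) (ε : ℝ) (hε : 0 < ε) : ∃ n₀ : ℕ, ∀ V : Finset ℕ, n₀ ≤ V.card →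
    ∀ b : Fin R → ℕ, (∀ ρ, 2 ≤ b ρ) → ∀ l : ℕ, ∃ C N₀ : ℕ, ∀ N : Fin R → ℕ, (∀ ρ, N₀ ≤ N ρ) →
      (((V.powersetCard r).filter (fun F => ¬ Rich b l C N F)).card : ℝ) ≤ ε * (V.card.choose r : ℝ) := by
  obtain ⟨n₀, h⟩ := Pool.Agent.NH16.CC.narSets R r ε hε
  refine ⟨n₀, fun V hV b hb l => ?_⟩
  obtain ⟨C, N₀, h1⟩ := h V hV (fun ρ v => ((b ρ : ℤ) ^ v, 1))
    (fun ρ u _ v _ huv => by
      simp only [Prod.mk.injEq] at huv
      have h3 : b ρ ^ u = b ρ ^ v := by exact_mod_cast huv.1
      exact Nat.pow_right_injective (hb ρ) h3)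
    (fun ρ v _ => ⟨by
      have := hb ρ
      have h2 : (0 : ℤ) < (b ρ : ℤ) := by exact_mod_cast (by omega : 0 < b ρ)
      exact pow_pos h2 v, isCoprime_one_right⟩)
    (fun ρ p hp => ⟨0, fun v _ hd => by
      simp only [mul_zero, zero_add] at hd
      have h2 := Int.le_of_dvd (by norm_num) hd
      have := hp.one_lt
      omega⟩) l
  refine ⟨C, N₀, fun N hN => ?_⟩
  obtain ⟨Ex, hEx1, hEx2⟩ := h1 N hN
  refine le_trans ?_ hEx2
  rw [Nat.cast_le]
  apply card_le_card
  intro F hF
  rw [mem_filter, mem_powersetCard] at hF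
  by_contra hFE
  refine hF.2 ?_
  intro T hT
  obtain ⟨I, hI, hc, hI2⟩ := hEx1 F hF.1.1 hF.1.2 hFE T hT
  refine ⟨I, hI, ?_, fun ρ => ?_⟩
  · have h5 : ((5 : ℝ) ^ R * T.card : ℝ) ≤ 18 ^ R * I.card := by exact_mod_cast hc
    rw [div_pow, div_mul_eq_mul_div, div_le_iff₀ (by positivity)]
    linarith
  · obtain ⟨d, hd1, hd2, hd3⟩ := hI2 ρ
    refine ⟨d, hd1, hd2, hd3.trans ?_⟩
    rw [Nat.cast_le]
    unfold Pool.Agent.Y827.RO.cntA count
    apply card_le_card
    intro n hn
    rw [mem_filter] at hn ⊢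
    refine ⟨hn.1, fun i hi j hj => ?_⟩
    have h3 := hn.2 i hi _ (mem_image_of_mem _ hj)
    simp only at h3
    have e : ((b ρ : ℤ) ^ j * ((n + i * d : ℕ) : ℤ) + 1).toNat = b ρ ^ j * (n + i * d) + 1 := by
      have h5 : (b ρ : ℤ) ^ j * ((n + i * d : ℕ) : ℤ) = ((b ρ ^ j * (n + i * d) : ℕ) : ℤ) := by push_cast; ring
      rw [h5]
      omega
    rwa [e] at h3

end Pool.Agent.Results.MP_9f2731_nt.ProgressionsAtPositions
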