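import Mathlib
import Pool.Agent.NH16.CC.NarB
import Pool.Agent.R493.SC.Geo

set_option autoImplicit false

/-!
# Sets of positions in Cunningham chains all of which are prime along progressions, at several scales

The numbers `2 ^ j n + 1`, `j = 0, 1, ...`, form a sequence in which every term is twice the preceding one minus
`1`: Cunningham chains of the second kind are runs of primes in such sequences, and the question is whether all
the positions `0, ..., k` can be occupied by primes simultaneously.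

Let `V` be a large finite set of positions.  For the proportion `(5 / 18) ^ (R k) - ε` of the `(k + 1)`-element
sets `F` of positions from `V` all positions in `F` are occupied by primes for all terms `n, n + d, ...,
n + (l - 1) d` of many arithmetic progressions with a small difference, simultaneously at `R` scales
`N_1, ..., N_R`, which may be of very different sizes, and for `R` bases `b_ρ` (for the question all are `2`).
The case `l = 1` is in the starting file `CommonPositions`.
-/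

namespace Pool.Agent.Results.MP_9f2731_nt.SharesWithProgressions

open Finset

/-- the number of the `1 ≤ n ≤ N` such that all the numbers `b ^ j (n + i d) + 1`, `i < l`, `j ∈ F`, are prime -/
def count (b l d : ℕ) (F : Finset ℕ) (N : ℕ) : ℕ :=
  ((Icc 1 N).filter (fun n => ∀ i < l, ∀ j ∈ F, (b ^ j * (n + i * d) + 1).Prime)).card

/-- For a difference `1 ≤ d ≤ (log N) ^ C` at least `N / (log N) ^ C` of the `n ≤ N` are such that all the
`b ^ j (n + i d) + 1`, `i < l`, `j ∈ F`, are prime. -/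
def Occupied (b l C N : ℕ) (F : Finset ℕ) : Prop :=
  ∃ d : ℕ, 1 ≤ d ∧ (d : ℝ) ≤ (Real.log N) ^ C ∧ (N : ℝ) / (Real.log N) ^ C ≤ (count b l d F N : ℝ)

open Classical in
theorem result (R k : ℕ) (ε : ℝ) (hε : 0 < ε) : ∃ n₀ : ℕ, ∀ V : Finset ℕ, n₀ ≤ V.card →
    ∀ b : Fin R → ℕ, (∀ ρ, 2 ≤ b ρ) → ∀ l : ℕ, ∃ C N₀ : ℕ, ∀ N : Fin R → ℕ, (∀ ρ, N₀ ≤ N ρ) →
      ((5 / 18) ^ (R * k) - ε) * (V.card.choose (k + 1) : ℝ) ≤
        (((V.powersetCard (k + 1)).filter (fun F => ∀ ρ, Occupied (b ρ) l C (N ρ) F)).card : ℝ) := by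
  obtain ⟨n₀, h⟩ := Pool.Agent.NH16.CC.tuplesNar R k ε hε
  refine ⟨n₀, fun V hV b hb l => ?_⟩
  obtain ⟨C, N₀, h1⟩ := h V hV (fun ρ v => ((b ρ : ℤ) ^ v, 1))
    (fun ρ u _ v _ huv => by
      simp only [Prod.mk.injEq] at huv
      have h3 : b ρ ^ u = b ρ ^ v := by exact_mod_cast huv.1
      exact Nat.pow_right_injective (hb ρ) h3)
    (fun ρ v _ => ⟨by
      have := hb ρ
      have h2 : (0 : ℤ) < (b ρ : ℤ) := by exact_mod_cast (by omega : 0 < b ρ)
      exact pow_pos h2 v, isCoprime_one_right⟩)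
    (fun ρ p hp => ⟨0, fun v _ hd => by
      simp only [mul_zero, zero_add] at hd
      have h2 := Int.le_of_dvd (by norm_num) hd
      have := hp.one_lt
      omega⟩) l
  refine ⟨C, N₀, fun N hN => ?_⟩
  have h2 : ((5 / 18) ^ (R * k) - ε) * (V.card.choose (k + 1) : ℝ) ≤
      (((V.powersetCard (k + 1)).filter (fun F : Finset ℕ => ∀ ρ, Pool.Agent.Y827.RO.QN l C (N ρ)
        (F.image (fun v => ((b ρ : ℤ) ^ v, (1 : ℤ)))))).card : ℝ) := by
    have h4 := Pool.Agent.R493.SC.subsets_of_tuples (k := k) (V := V) (δ := (5 / 18) ^ (R * k) - ε)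
      (Q := fun F => ∀ ρ, Pool.Agent.Y827.RO.QN l C (N ρ) (F.image (fun v => ((b ρ : ℤ) ^ v, (1 : ℤ))))) (by
      have h3 := h1 N hN
      convert h3)
    convert h4
  refine h2.trans ?_
  rw [Nat.cast_le]
  apply card_le_card
  intro F hF
  have hF := mem_filter.1 hF
  refine mem_filter.2 ⟨hF.1, fun ρ => ?_⟩
  obtain ⟨d, hd1, hd2, hd3⟩ := hF.2 ρ
  refine ⟨d, hd1, hd2, hd3.trans ?_⟩
  rw [Nat.cast_le]
  unfold Pool.Agent.Y827.RO.cntA count
  apply card_le_card
  intro n hn
  rw [mem_filter] at hn ⊢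
  refine ⟨hn.1, fun i hi j hj => ?_⟩
  have h3 := hn.2 i hi _ (mem_image_of_mem _ hj)
  simp only at h3
  have e : ((b ρ : ℤ) ^ j * ((n + i * d : ℕ) : ℤ) + 1).toNat = b ρ ^ j * (n + i * d) + 1 := by
    have h5 : (b ρ : ℤ) ^ j * ((n + i * d : ℕ) : ℤ) = ((b ρ ^ j * (n + i * d) : ℕ) : ℤ) := by push_cast; ring
    rw [h5]
    omega
  rwa [e] at h3

end Pool.Agent.Results.MP_9f2731_nt.SharesWithProgressions
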